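import Mathlib
import Pool.Agent.helper46.AX.All1

/-!
# MP_2e0e07_nt: the adelic dichotomy

Let `Γ` be a compact topological group with Haar measure `μ` and sets `frob v` of Frobenius
elements, dense in `Γ` also after removing finitely many places `v` (for the question: the absolute
Galois group of the imaginary quadratic field `K` and Chebotarev's theorem), `E` a number field and
`Q v = X² - a_v X + d_v` a polynomial over `E` for every `v` (the Hecke polynomials of a Bianchi
newform `f` without CM).

The family of varieties. For `x ∈ I` let `P x i v` be polynomials over `ℤ` (`i = 1, ..., r`; the Frobenius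
polynomials of the `H^i(X_x)`, one of them `X - d_v` for `det ρ`) and, for EVERY prime `q`, let
`V x q i` be a continuous representation of `Γ` over `ℤ_[q]` (the `q`-adic cohomology) whose
characteristic polynomial at the Frobenius elements at `v` is `P x i v` for almost all `v`. The systems
`P x` are finitely many outside a finite set `T₁` of places (for instance: one `X`), or they have bounded
realisations (`HasBoundedRealisations`: all varieties with given Betti numbers and good reduction
outside a fixed finite set; the theorems of Deligne and Hermite-Minkowski).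

The form. Let `J` be an infinite set, `p j` different primes, `F j` a finite extension of `ℚ_[p j]`,
`ρ j : Γ → GL₂` continuous with integral entries over `F j`, such that `(V x (p j), ρ j)` is a realisation
of `(P x, Q)` over an algebraically closed field `Ω j` containing `F j`, for all `x` and `j`; `S j` is the
reduction of `ρ j` over an algebraically closed field `κ j` of characteristic `p j`, and for `j` outside a
finite set `J₀` the `S j` and the `V x (p j) i` modulo `p j` are residual data (`IsResidualFam`): in
particular `S j` is irreducible and `p j` divides the order of its image.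

`ad ρ` is `ρ` up to scalars, with kernel `adKer ρ`. `kerAll V` is the common kernel of the `V q i` for
ALL primes `q`, and `cross V ρ j` the subgroup generated by `adKer (ρ j)` and by the elements of
`kerAll V` which are in `adKer (ρ k)` for all `k ≠ j`.

Theorem. There is a number `C`, the same for all `x ∈ I` (for all varieties of the family), such that for
every `x` one of the following holds:
* all realisations of `(P x, Q)` arise from `P x` (`ad⁰ ρ` is on an open subgroup a subquotient of a tensor
  construction of `V = ⊕ V i`, and `ρ` itself arises from `V` if there is a good set of places, for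
  instance if `f` has weight two), the degrees of `K(ad (ρ j mod p j))` over the field cut out by
  `V x (p j)` modulo `p j` are at most `C`, and `K(ad (ρ j))` and `K(V x (p j))` have an intersection of
  infinite degree, for all `j`;
* no realisation of `(P x, Q)` arises, and for EVERY `j` the index of `cross (V x) ρ j` is finite, and at
  most two if `p j > C`; and for any `g j ∈ cross (V x) ρ j` there is one `h ∈ kerAll (V x)` with
  `ad (ρ j) (h) = ad (ρ j) (g j)` for all `j`.

So the image of `Γ` in `∏_j PGL₂(O_j) × ∏_q GL(V x q)` is as large as possible up to finite index at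
every `j` and index two for almost all `j` (it contains `∏_j N_j × 1`, `N_j` of index at most two in the
image of `ad (ρ j)` for `p j > C`, of finite index for all `j`), or `f` comes from `x`, for all `p`. Index
two is sharp: the square root of `± p` is in both fields. In Galois terms: the intersection of the field
cut out by `ad (ρ j)` with the compositum of all the fields cut out by `X` and by the other `ad (ρ k)`
is finite, of degree at most two for `p j > C`, for every variety `X` of the family from which `f` does not
come. For elliptic curves without CM and for the product of modular curves this is known (Serre 1972,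
Ribet, Momose, Loeffler 2017, independence of modular forms).
-/

namespace Pool.Agent.Results.MP_2e0e07_nt.AdelicDichotomy

open Matrix Polynomial Pool.Agent.GO Pool.Agent.AR Pool.Agent.RG Pool.Agent.HZ Pool.Agent.DS
  Pool.Agent.AX MeasureTheory NumberField

theorem result {Γ Place E : Type} [Group Γ] [TopologicalSpace Γ] [IsTopologicalGroup Γ]
    [CompactSpace Γ] [MeasurableSpace Γ] [BorelSpace Γ] (μ : Measure Γ) [μ.IsHaarMeasure]
    (frob : Place → Set Γ)
    -- the Frobenius elements are dense
    (hd : DenseIn frob ⊤ Set.univ) [Field E] [NumberField E]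
    -- the family of systems
    {r : ℕ} {n : Fin r → ℕ} {I J : Type} [Infinite J]
    (P : I → Fin r → Place → ℤ[X]) (Q : Place → E[X])
    -- `det ρ` is one of the `V x q i`
    (i₀ : Fin r) (hdet : ∀ x v, (P x i₀ v).map (Int.castRingHom E) = X - C ((Q v).coeff 0))
    -- finitely many systems, or realisations with bounded ramification and bounded weights
    (T₁ : Set Place) (hT₁ : T₁.Finite)
    (hfam : (Set.range fun x => fun v : {v : Place // v ∉ T₁} => fun i => P x i v.1).Finite ∨
      HasBoundedRealisations frob n (fun x i v => (P x i v).map (Int.castRingHom E)) T₁)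
    -- the representations of the family, for all primes
    (V : I → (q : ℕ) → [Fact q.Prime] → (i : Fin r) →
      Γ →* Matrix (Fin (n i)) (Fin (n i)) ℤ_[q])
    (hV : ∀ (x : I) (q : ℕ) [Fact q.Prime] (i : Fin r), Continuous (V x q i))
    (hcV : ∀ (x : I) (q : ℕ) [Fact q.Prime], ∃ T : Set Place, T.Finite ∧
      ∀ v ∉ T, ∀ s ∈ frob v, ∀ i, (V x q i s).charpoly = (P x i v).map (Int.castRingHom ℤ_[q]))
    -- the representations `ρ j`
    (p : J → ℕ) [∀ j, Fact (p j).Prime] (hp : Function.Injective p)
    (F Ω κ : J → Type) [∀ j, NormedField (F j)] [∀ j, NormedAlgebra ℚ_[p j] (F j)]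
    [∀ j, FiniteDimensional ℚ_[p j] (F j)] [∀ j, Field (Ω j)] [∀ j, IsAlgClosed (Ω j)]
    [∀ j, CharZero (Ω j)] [∀ j, Algebra (F j) (Ω j)] [∀ j, TopologicalSpace (Ω j)]
    [∀ j, IsTopologicalRing (Ω j)] [∀ j, T2Space (Ω j)]
    [∀ j, Field (κ j)] [∀ j, IsAlgClosed (κ j)] [∀ j, CharP (κ j) (p j)]
    (ι : ∀ j, E →+* F j) (red : ∀ j, F j → κ j) (hred : ∀ j, IsRed (red j))
    (ρ : ∀ j, Γ →* Matrix (Fin 2) (Fin 2) (F j)) (hρ : ∀ j, Continuous (ρ j))
    (hint : ∀ j g a b, ‖ρ j g a b‖ ≤ 1)
    (hR : ∀ x j, IsRealisation frob (fun i v => (P x i v).map (Int.castRingHom E)) Q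
      ((algebraMap (F j) (Ω j)).comp (ι j))
      (fun i => mapHom (padicTo (p j) (F j) (Ω j)) (V x (p j) i))
      (bc (algebraMap (F j) (Ω j)) (ρ j)))
    -- their reductions
    (S : ∀ j, Γ →* Matrix (Fin 2) (Fin 2) (κ j)) (hS : ∀ j g, S j g = (ρ j g).map (red j))
    (J₀ : Set J) (hJ₀ : J₀.Finite) (φ : ∀ j, 𝓞 E →+* κ j)
    (hres : IsResidualFam frob
      (fun (y : I × {j : J // j ∉ J₀}) i v => (P y.1 i v).map (Int.castRingHom E)) Q
      (fun y => p y.2.1) (fun y => κ y.2.1) (fun y => φ y.2.1)
      (fun y i => mapHom (PadicInt.toZMod (p := p y.2.1)) (V y.1 (p y.2.1) i))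
      (fun y => S y.2.1)) :
    ∃ C : ℕ, ∀ x : I,
      (AllArise.{0} μ frob n (fun i v => (P x i v).map (Int.castRingHom E)) Q ∧
        (∀ j, j ∉ J₀ →
          adDegree (fun i => mapHom (PadicInt.toZMod (p := p j)) (V x (p j) i)) (S j) ≤ C) ∧
        ∀ j, (kerV (V x (p j)) ⊔ adKer (ρ j)).index = 0) ∨
      (NoneArises.{0} μ frob n (fun i v => (P x i v).map (Int.castRingHom E)) Q ∧
        (∀ j, (cross (V x) ρ j).index ≠ 0 ∧ (C < p j → (cross (V x) ρ j).index ≤ 2)) ∧
        ∀ g : J → Γ, (∀ j, g j ∈ cross (V x) ρ j) →
          ∃ h ∈ kerAll (V x), ∀ j, h⁻¹ * g j ∈ adKer (ρ j)) :=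
  MAIN1_all μ frob hd P Q i₀ hdet T₁ hT₁ hfam V hV hcV p hp F Ω κ ι red hred ρ hρ hint hR S hS
    J₀ hJ₀ φ hres

end Pool.Agent.Results.MP_2e0e07_nt.AdelicDichotomy
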