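import Mathlib
import Pool.Agent.helper82.Weil.P

set_option autoImplicit false

namespace Pool.Agent.Results.MP_f6e9a2_nt.AffineInvariance

open Pool.Agent.helper82.Weil

/-- Power saving for double character sums when `A` is almost invariant under a finite family `Γ`
of affine maps `x ↦ m x + n` (encoded as `(m, n)`) and the preimages of `-B` under the members of
`Γ` do not overlap too much. -/
theorem result :
    ∀ ε : ℝ, 0 < ε → ∃ p₀ : ℕ, ∃ δ : ℝ, 0 < δ ∧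
      ∀ p : ℕ, p.Prime → p₀ < p →
        ∀ (A B : Finset (ZMod p)) (Γ : Finset (ZMod p × ZMod p)),
          (p : ℝ) ^ ε < (A.card : ℝ) → Γ.Nonempty → (∀ g ∈ Γ, g.1 ≠ 0) →
          (∀ g ∈ Γ, ((A.filter (fun a => g.1 * a + g.2 ∉ A)).card : ℝ) ≤ (p : ℝ) ^ (-ε) * A.card) →
          (∑ g ∈ Γ, ∑ h ∈ Γ,
            (((B ×ˢ B).filter (fun x => h.1 * (x.1 + g.2) = g.1 * (x.2 + h.2))).card : ℝ)) *
              (p : ℝ) ^ (1 / 2 + ε) ≤ ((Γ.card : ℝ) * B.card) ^ 2 →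
          ∀ χ : MulChar (ZMod p) ℂ, χ ≠ 1 →
            ∑ b ∈ B, ‖∑ a ∈ A, χ (a + b)‖ ≤ (p : ℝ) ^ (-δ) * (A.card : ℝ) * (B.card : ℝ) := by
  intro ε hε
  obtain ⟨k, p₀, δ, hk, hδ, key⟩ := asymp_one ε hε
  refine ⟨p₀, δ, hδ, ?_⟩
  intro p hp hpp A B Γ hA hΓne hΓ hη hN χ hχ
  have : Fact p.Prime := ⟨hp⟩
  obtain ⟨Y, hY0, hY1, hY2⟩ := affine_bound' χ hχ A B Γ hΓ ((p : ℝ) ^ (-ε)) hη k hk
  rw [ZMod.card] at hY2
  refine key p hpp A.card B.card Γ.card _ _ Y hA (by positivity) ?_ (by positivity) hY0 hY1 hY2 hN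
  exact_mod_cast hΓne.card_pos

end Pool.Agent.Results.MP_f6e9a2_nt.AffineInvariance
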