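import Mathlib
import Pool.Agent.helper82.Weil.Q
import Pool.Agent.helper82.Weil.R

set_option autoImplicit false

namespace Pool.Agent.Results.MP_f6e9a2_nt.EnergyBurgess

open Pool.Agent.helper82.Weil Finset Pointwise

/-- Power saving for double character sums when `A` is a large part of a set `P` absorbing the
translations by a product set `M * T`, in terms of the multiplicative energy of `M` and `P - P` and
of the additive energy of `B`. -/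
theorem result :
    ∀ ε : ℝ, 0 < ε → ∃ p₀ : ℕ, ∃ δ : ℝ, 0 < δ ∧
      ∀ p : ℕ, p.Prime → p₀ < p →
        ∀ A P M T B : Finset (ZMod p), M.Nonempty → (0 : ZMod p) ∉ M →
          (p : ℝ) ^ ε < (T.card : ℝ) → (P.card : ℝ) ≤ (p : ℝ) ^ δ * A.card →
          (∀ a ∈ A, ∀ m ∈ M, ∀ t ∈ T, a - m * t ∈ P) →
          (mulEnergy M (P - P) : ℝ) * (addEnergy B B : ℝ) * (p : ℝ) ^ (1 + ε) ≤
            ((M.card : ℝ) * (P.card : ℝ) * (B.card : ℝ) ^ 2) ^ 2 →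
          ∀ χ : MulChar (ZMod p) ℂ, χ ≠ 1 → ∀ β : ZMod p → ℂ, (∀ b, ‖β b‖ ≤ 1) →
            ∑ a ∈ A, ‖∑ b ∈ B, β b * χ (a + b)‖ ≤
              (p : ℝ) ^ (-δ) * (A.card : ℝ) * (B.card : ℝ) := by
  intro ε hε
  obtain ⟨k, p₀, δ, hk, hδ, key⟩ := asymp_three ε hε
  refine ⟨p₀, δ, hδ, ?_⟩
  intro p hp hpp A P M T B hMne hM0 hT hPA hP hQ χ hχ β hβ
  have : Fact p.Prime := ⟨hp⟩
  have hM : ∀ m ∈ M, m ≠ 0 := by
    rintro m hm rfl
    exact hM0 hm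
  have h0 := energy_bound χ hχ A P M T B hM hP β hβ k hk
  rw [ZMod.card] at h0
  have hE0 : 0 ≤ ∑ a ∈ A, ‖∑ b ∈ B, β b * χ (a + b)‖ ^ 2 :=
    Finset.sum_nonneg fun _ _ => by positivity
  have h1 := key p hpp M.card T.card A.card P.card B.card _ _ (by exact_mod_cast hMne.card_pos) hT
    (by positivity) (by positivity) hPA (by positivity) (by positivity) hE0 h0 hQ
  have h2 : (∑ a ∈ A, ‖∑ b ∈ B, β b * χ (a + b)‖) ^ 2 ≤
      (A.card : ℝ) * ∑ a ∈ A, ‖∑ b ∈ B, β b * χ (a + b)‖ ^ 2 :=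
    sq_sum_le_card_mul_sum_sq
  have hp0 : (0 : ℝ) < p := by exact_mod_cast hp.pos
  have h3 : (∑ a ∈ A, ‖∑ b ∈ B, β b * χ (a + b)‖) ^ 2 ≤
      ((p : ℝ) ^ (-δ) * (A.card : ℝ) * (B.card : ℝ)) ^ 2 := by
    refine h2.trans ?_
    calc (A.card : ℝ) * ∑ a ∈ A, ‖∑ b ∈ B, β b * χ (a + b)‖ ^ 2
        ≤ (A.card : ℝ) * (((p : ℝ) ^ (-δ) * B.card) ^ 2 * A.card) :=
          mul_le_mul_of_nonneg_left h1 (by positivity)
      _ = _ := by ring
  exact (pow_le_pow_iff_left₀ (Finset.sum_nonneg fun _ _ => norm_nonneg _) (by positivity)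
    (by norm_num)).mp h3

end Pool.Agent.Results.MP_f6e9a2_nt.EnergyBurgess
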