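import Mathlib
import Pool.Agent.helper82.Weil.P

set_option autoImplicit false

namespace Pool.Agent.Results.MP_f6e9a2_nt.MoebiusGrowth

open Pool.Agent.helper82.Weil

/-- Power saving for double character sums when `A` has small growth under a finite family `Γ` of
fractional linear maps `x ↦ (m x + n) / (r x + s)` (encoded as `(m, n, r, s)`) and the preimages of
`-B` under the members of `Γ` do not overlap too much in mean square. -/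
theorem result :
    ∀ ε : ℝ, 0 < ε → ∃ p₀ : ℕ, ∃ δ : ℝ, 0 < δ ∧
      ∀ p : ℕ, p.Prime → p₀ < p →
        ∀ (A A' B : Finset (ZMod p)) (Γ : Finset (ZMod p × ZMod p × ZMod p × ZMod p)),
          (p : ℝ) ^ ε < (A.card : ℝ) → (A'.card : ℝ) ≤ (p : ℝ) ^ δ * A.card → Γ.Nonempty →
          (∀ g ∈ Γ, ∀ a ∈ A, ∃ a' ∈ A', g.2.2.1 * a' + g.2.2.2 ≠ 0 ∧
            g.1 * a' + g.2.1 = a * (g.2.2.1 * a' + g.2.2.2)) →
          (∀ g ∈ Γ, ∀ b ∈ B, g.1 + b * g.2.2.1 ≠ 0) →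
          (∑ g ∈ Γ, ∑ h ∈ Γ, (((B ×ˢ B).filter (fun x =>
            (g.2.1 + x.1 * g.2.2.2) * (h.1 + x.2 * h.2.2.1) =
              (h.2.1 + x.2 * h.2.2.2) * (g.1 + x.1 * g.2.2.1))).card : ℝ) ^ 2) *
                (p : ℝ) ^ (1 + ε) ≤ ((Γ.card : ℝ) * (B.card : ℝ) ^ 2) ^ 2 →
          ∀ χ : MulChar (ZMod p) ℂ, χ ≠ 1 → ∀ β : ZMod p → ℂ, (∀ b, ‖β b‖ ≤ 1) →
            ∑ a ∈ A, ‖∑ b ∈ B, β b * χ (a + b)‖ ≤
              (p : ℝ) ^ (-δ) * (A.card : ℝ) * (B.card : ℝ) := by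
  intro ε hε
  obtain ⟨k, p₀, δ, hk, hδ, key⟩ := asymp_two ε hε
  refine ⟨max p₀ 1, δ, hδ, ?_⟩
  intro p hp hpp A A' B Γ hA hA'A hΓne hgrow hpole hQ χ hχ β hβ
  have : Fact p.Prime := ⟨hp⟩
  have h0 := moebius_bound' χ hχ A A' B Γ hgrow hpole β hβ k hk
  rw [ZMod.card] at h0
  obtain ⟨g₀, hg₀⟩ := hΓne
  have hcard : (A.card : ℝ) ≤ A'.card := by
    exact_mod_cast card_le_of_moebius A A' g₀ (hgrow g₀ hg₀)
  have hE0 : 0 ≤ ∑ a ∈ A, ‖∑ b ∈ B, β b * χ (a + b)‖ ^ 2 :=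
    Finset.sum_nonneg fun _ _ => by positivity
  have hp0 : (0 : ℝ) < p := by exact_mod_cast hp.pos
  have h1 := key p (lt_of_le_of_lt (le_max_left _ _) hpp) A.card A'.card B.card Γ.card _ _ hA hcard
    hA'A (by positivity) (by exact_mod_cast (Finset.card_pos.mpr ⟨g₀, hg₀⟩))
    (Finset.sum_nonneg fun _ _ => Finset.sum_nonneg fun _ _ => by positivity) hE0 h0 hQ
  -- Cauchy-Schwarz
  have h2 : (∑ a ∈ A, ‖∑ b ∈ B, β b * χ (a + b)‖) ^ 2 ≤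
      (A.card : ℝ) * ∑ a ∈ A, ‖∑ b ∈ B, β b * χ (a + b)‖ ^ 2 :=
    sq_sum_le_card_mul_sum_sq
  have h3 : (∑ a ∈ A, ‖∑ b ∈ B, β b * χ (a + b)‖) ^ 2 ≤
      ((p : ℝ) ^ (-δ) * (A.card : ℝ) * (B.card : ℝ)) ^ 2 := by
    refine h2.trans ?_
    calc (A.card : ℝ) * ∑ a ∈ A, ‖∑ b ∈ B, β b * χ (a + b)‖ ^ 2
        ≤ (A.card : ℝ) * (((p : ℝ) ^ (-δ) * B.card) ^ 2 * A.card) :=
          mul_le_mul_of_nonneg_left h1 (by positivity)
      _ = _ := by ring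
  exact (pow_le_pow_iff_left₀ (Finset.sum_nonneg fun _ _ => norm_nonneg _) (by positivity)
    (by norm_num)).mp h3

end Pool.Agent.Results.MP_f6e9a2_nt.MoebiusGrowth
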