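import Mathlib
import Pool.Agent.helper82.Weil.S

set_option autoImplicit false

namespace Pool.Agent.Results.MP_f6e9a2_nt.SavingBarrier

open Pool.Agent.helper82.Weil

/-- No exponent larger than `ε / 2` is admissible in the conjectured bound, for any large prime and
any multiplicative character. -/
theorem result :
    ∀ ε : ℝ, 0 < ε → ε < 1 → ∀ δ : ℝ, ε / 2 < δ → ∃ p₀ : ℕ,
      ∀ p : ℕ, p.Prime → p₀ < p → ∀ χ : MulChar (ZMod p) ℂ,
        ∃ A B : Finset (ZMod p), (p : ℝ) ^ ε < (A.card : ℝ) ∧ (p : ℝ) ^ ε < (B.card : ℝ) ∧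
          (p : ℝ) ^ (-δ) * (A.card : ℝ) * (B.card : ℝ) < ‖∑ a ∈ A, ∑ b ∈ B, χ (a + b)‖ := by
  intro ε hε hε1 δ hδ
  have hlim1 : Filter.Tendsto (fun x : ℕ => (x : ℝ) ^ (1 - ε)) Filter.atTop Filter.atTop :=
    (tendsto_rpow_atTop (by linarith)).comp tendsto_natCast_atTop_atTop
  have hlim2 : Filter.Tendsto (fun x : ℕ => (x : ℝ) ^ (δ - ε / 2)) Filter.atTop Filter.atTop :=
    (tendsto_rpow_atTop (by linarith)).comp tendsto_natCast_atTop_atTop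
  obtain ⟨p₁, hp₁⟩ := Filter.eventually_atTop.mp (hlim1.eventually_ge_atTop 4)
  obtain ⟨p₂, hp₂⟩ := Filter.eventually_atTop.mp (hlim2.eventually_gt_atTop 512)
  refine ⟨max p₁ p₂, ?_⟩
  intro p hp hpp χ
  have : Fact p.Prime := ⟨hp⟩
  have hp1 : (1 : ℝ) < p := by exact_mod_cast hp.one_lt
  have hp0 : (0 : ℝ) < p := by linarith
  have h1 : (4 : ℝ) ≤ (p : ℝ) ^ (1 - ε) := hp₁ p (le_trans (le_max_left _ _) hpp.le)
  have h2 : (512 : ℝ) < (p : ℝ) ^ (δ - ε / 2) := hp₂ p (le_trans (le_max_right _ _) hpp.le)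
  set x : ℝ := (p : ℝ) ^ ε with hx
  have hx1 : 1 ≤ x := Real.one_le_rpow hp1.le hε.le
  set n : ℕ := ⌊x⌋₊ + 1 with hn
  have hnx : x < n := by
    rw [hn]; push_cast; exact Nat.lt_floor_add_one x
  have hn2x : (n : ℝ) ≤ 2 * x := by
    have := Nat.floor_le (by linarith : 0 ≤ x)
    rw [hn]; push_cast; linarith
  have hpx : (p : ℝ) ^ (1 - ε) * x = p := by
    rw [hx, ← Real.rpow_add hp0]; simp
  have hnp : 2 * n ≤ Fintype.card (ZMod p) := by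
    rw [ZMod.card]
    have : (2 * n : ℝ) ≤ p := by
      calc (2 * n : ℝ) ≤ 4 * x := by linarith
        _ ≤ (p : ℝ) ^ (1 - ε) * x := mul_le_mul_of_nonneg_right h1 (by linarith)
        _ = p := hpx
    exact_mod_cast this
  obtain ⟨A, B, hA, hB, hAB⟩ := exists_large χ n (by omega) hnp
  have hnA : (n : ℝ) ≤ A.card := by exact_mod_cast hA
  have hnB : (n : ℝ) ≤ B.card := by exact_mod_cast hB
  refine ⟨A, B, by linarith, by linarith, ?_⟩
  set S : ℝ := ‖∑ a ∈ A, ∑ b ∈ B, χ (a + b)‖ with hS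
  have hABpos : 0 < (A.card : ℝ) * B.card := by
    have : 0 < (n : ℝ) := by linarith
    exact mul_pos (by linarith) (by linarith)
  have hsq : Real.sqrt (3 * n) ≤ 4 * (p : ℝ) ^ (ε / 2) := by
    have h3 : (3 * n : ℝ) ≤ (4 * (p : ℝ) ^ (ε / 2)) ^ 2 := by
      have h4 : ((p : ℝ) ^ (ε / 2)) ^ 2 = x := by
        rw [hx, ← Real.rpow_natCast, ← Real.rpow_mul hp0.le]
        congr 1
        push_cast
        ring
      rw [mul_pow, h4]
      linarith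
    exact Real.sqrt_le_iff.mpr ⟨by positivity, h3⟩
  have hS0 : 0 < S := by
    rcases (norm_nonneg (∑ a ∈ A, ∑ b ∈ B, χ (a + b))).lt_or_eq with h | h
    · exact h
    · rw [← hS] at h
      rw [← h, mul_zero] at hAB
      linarith
  have h5 : (A.card : ℝ) * B.card ≤ 512 * (p : ℝ) ^ (ε / 2) * S := by
    refine hAB.trans ?_
    apply mul_le_mul_of_nonneg_right _ hS0.le
    linarith
  have h6 : (p : ℝ) ^ (-δ) * (p : ℝ) ^ (ε / 2) * (p : ℝ) ^ (δ - ε / 2) = 1 := by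
    rw [← Real.rpow_add hp0, ← Real.rpow_add hp0]
    rw [show -δ + ε / 2 + (δ - ε / 2) = 0 by ring, Real.rpow_zero]
  have h7 : 0 < (p : ℝ) ^ (-δ) * (p : ℝ) ^ (ε / 2) := by positivity
  have h8 : 512 * ((p : ℝ) ^ (-δ) * (p : ℝ) ^ (ε / 2)) < 1 := by
    calc 512 * ((p : ℝ) ^ (-δ) * (p : ℝ) ^ (ε / 2))
        = (p : ℝ) ^ (-δ) * (p : ℝ) ^ (ε / 2) * 512 := by ring
      _ < (p : ℝ) ^ (-δ) * (p : ℝ) ^ (ε / 2) * (p : ℝ) ^ (δ - ε / 2) :=
          mul_lt_mul_of_pos_left h2 h7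
      _ = 1 := h6
  have hpδ : 0 < (p : ℝ) ^ (-δ) := by positivity
  calc (p : ℝ) ^ (-δ) * (A.card : ℝ) * (B.card : ℝ)
      = (p : ℝ) ^ (-δ) * ((A.card : ℝ) * B.card) := by ring
    _ ≤ (p : ℝ) ^ (-δ) * (512 * (p : ℝ) ^ (ε / 2) * S) := mul_le_mul_of_nonneg_left h5 hpδ.le
    _ = 512 * ((p : ℝ) ^ (-δ) * (p : ℝ) ^ (ε / 2)) * S := by ring
    _ < 1 * S := mul_lt_mul_of_pos_right h8 hS0
    _ = S := one_mul _

end Pool.Agent.Results.MP_f6e9a2_nt.SavingBarrier
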