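import Mathlib
import Pool.Agent.helper82.UM.Defs
import Pool.Agent.helper82.UM.All

/-!
# MP_2e0e07_nt: the uniform dichotomy

Let `Γ` be a compact topological group with Haar measure `μ` and sets `frob v` of Frobenius elements,
with norms `nv v` (`IsFrob`; for the question: the absolute Galois group of an imaginary quadratic
field `K` and Chebotarev's theorem).

The form: `E` is a number field of degree at most `d`, `Q v = X² - a_v X + d_v` a polynomial over the
integers of `E` (the Hecke polynomials of a Bianchi newform `f` without CM, `d_v ∈ ℤ`). `J` is a set of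
indices, `p j` different primes, `F j` a finite extension of `ℚ_[p j]`, `ρ j : Γ → GL₂` continuous with
integral entries over `F j` and with characteristic polynomials `Q v`, and `S j` is its reduction over
an algebraically closed field `κ j` of characteristic `p j` (`IsMember`; in particular `ρ j` is
irreducible on all open subgroups). The index `j` is `Big` if `S j` is irreducible and `p j` divides the
order of its image; infinitely many `j` are big (for the question by a theorem of Larsen).

The variety: `P i v`, `i < r`, are polynomials over `ℤ` of degree `n i`, one of them `X - d_v` (the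
Frobenius polynomials of the `H^i(X)` and of `det ρ`), and, for EVERY prime `q`, `V q i` is a continuous
representation of `Γ` over `ℤ_[q]` with characteristic polynomials `P i v` (`IsSystem`).

The bounds: `T` is a finite set of places, outside of which all this holds and all conjugates of the
roots of the `P i v` and of `Q v` have absolute value at most `(nv v) ^ w` (`IsPolys`); and `N ≥ 1` is a
number such that the effective theorem of Chebotarev holds with the bounds `b B * N ^ a B` for the field
cut out by `V p₀` and by a `p₀`-adic representation `ρ₀` with characteristic polynomials `Q v`, over an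
extension of `ℚ_[p₀]` of degree at most `d`, for one fixed prime `p₀` (`EffectiveChebotarev`). By the
theorems of Lagarias-Montgomery-Odlyzko and Thorner-Zaman there are such functions `a`, `b`, which depend
only on `p₀` (and on the degree of `K`), if `N` is at least the product of `|D_K|` and the norms of the
bad places of `f` and `X`.

Theorem. There are numbers `c₁`, `c₂`, which depend only on the dimensions `n i`, on `d`, `w`, `p₀` and
on the functions `a`, `b`, but NOT on `Γ` (the field `K`), NOT on `f` and NOT on `X`, such that one of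
the following holds:
* all realisations of `(P, Q)` arise from `P` (`ad⁰ ρ` is on an open subgroup a subquotient of a tensor
  construction of `V = ⊕ V i`, and `ρ` itself arises from `V` if there is a good set of places, for
  instance if `f` has weight two); at EVERY place `v ∉ T` the quotient of the roots of `Q v` is a quotient
  of two roots of the product of the `P i v`; `K(ad (ρ j))` and `K(V (p j))` have an intersection of
  infinite degree for all `j`; and for EVERY big `j` with `p j ≠ 2` the field `K(ad (S j))` is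
  contained in the field cut out by `V (p j)` modulo `p j`;
* no realisation of `(P, Q)` arises; the relation between the roots fails at a place `v ∉ T` with
  `nv v ≤ c₁ * N ^ c₂`, for all embeddings of `E`; the index of `cross V ρ j` is finite for every `j`, and
  for every big `j` with `p j > c₁ * N ^ c₂` it is at most two and `K(ad (S j))` is not contained in
  the field cut out by `V (p j)` modulo `p j`; and for any `g j ∈ cross V ρ j` there is one
  `h ∈ kerAll V` with `ad (ρ j) (h) = ad (ρ j) (g j)` for all `j`.

Here `cross V ρ j` is the subgroup generated by `adKer (ρ j)` and by the elements of the common kernel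
`kerAll V` of the `V q i`, for ALL primes `q`, which are in `adKer (ρ k)` for all `k ≠ j`: the group of the
intersection of the field `K(ad (ρ j))` with the compositum of all the fields cut out by `X` (at all
primes) and by the other `ad (ρ k)`.

So `f` comes from `X` if and only if for ONE odd big prime `p > c₁ * N ^ c₂` the field
`K(ad (ρ_f mod p))` is contained in the field of the `p`-torsion of the cohomology of `X`; otherwise for
all big `p > c₁ * N ^ c₂` the field `K(ad ρ_{f,p})` and the field of ALL torsion points of `X` (and of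
all the other `K(ad ρ_{f,l})`) are disjoint up to a quadratic extension, and a place `v` of norm at most
`c₁ * N ^ c₂` shows it: uniformly in `K`, `f` and `X`. In particular the variety may move with `p`:
if for one odd big `p` there is a variety `X_p` with given Betti numbers and with a conductor `N` such
that `c₁ * N ^ c₂ < p`, and `K(ad (ρ_f mod p))` is contained in the field of the `p`-torsion of the
cohomology of `X_p`, then `f` comes from `X_p`; and conversely.
-/

namespace Pool.Agent.Results.MP_2e0e07_nt.UniformDichotomy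

open Matrix Polynomial Pool.Agent.GO Pool.Agent.AR Pool.Agent.RG Pool.Agent.HZ Pool.Agent.DS
  Pool.Agent.AX Pool.Agent.UM MeasureTheory NumberField

theorem result
    -- the numbers on which the constants depend
    (r : ℕ) (n : Fin r → ℕ) (i₀ : Fin r) (d w p₀ : ℕ) [Fact p₀.Prime] (a b : ℕ → ℕ) :
    ∃ c₁ c₂ : ℕ, ∀ {Γ Place E J : Type} [Group Γ] [TopologicalSpace Γ] [IsTopologicalGroup Γ]
    [CompactSpace Γ] [MeasurableSpace Γ] [BorelSpace Γ] (μ : Measure Γ) [μ.IsHaarMeasure]
    (frob : Place → Set Γ) (nv : Place → ℕ) (_ : IsFrob frob nv)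
    [Field E] [NumberField E] (_ : Module.finrank ℚ E ≤ d)
    -- the polynomials, the bad places, the conductor
    (P : Fin r → Place → ℤ[X]) (Q : Place → (𝓞 E)[X]) (T : Set Place) (N : ℕ) (_ : 1 ≤ N)
    (_ : IsPolys n i₀ w nv T P Q)
    -- the representations `V q i`, for all primes `q`
    (V : (q : ℕ) → [Fact q.Prime] → (i : Fin r) → Γ →* Matrix (Fin (n i)) (Fin (n i)) ℤ_[q])
    (_ : IsSystem frob nv T P V)
    -- the `p₀`-adic representation `ρ₀` and the effective theorem of Chebotarev
    (F₀ : Type) [NormedField F₀] [NormedAlgebra ℚ_[p₀] F₀] [FiniteDimensional ℚ_[p₀] F₀]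
    (_ : Module.finrank ℚ_[p₀] F₀ ≤ d) (ι₀ : E →+* F₀) (ρ₀ : Γ →* Matrix (Fin 2) (Fin 2) F₀)
    (_ : HasPolys frob nv T p₀ Q ι₀ ρ₀)
    (_ : EffectiveChebotarev frob nv T p₀ (kerV (V p₀) ⊓ ρ₀.ker) a b N)
    -- the representations `ρ j` and their reductions `S j`
    (p : J → ℕ) [∀ j, Fact (p j).Prime] (_ : Function.Injective p)
    (F Ω κ : J → Type) [∀ j, NormedField (F j)] [∀ j, NormedAlgebra ℚ_[p j] (F j)]
    [∀ j, FiniteDimensional ℚ_[p j] (F j)] [∀ j, Field (Ω j)] [∀ j, IsAlgClosed (Ω j)]
    [∀ j, CharZero (Ω j)] [∀ j, Algebra (F j) (Ω j)] [∀ j, TopologicalSpace (Ω j)]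
    [∀ j, IsTopologicalRing (Ω j)] [∀ j, T2Space (Ω j)]
    [∀ j, Field (κ j)] [∀ j, IsAlgClosed (κ j)] [∀ j, CharP (κ j) (p j)]
    (ι : ∀ j, E →+* F j) (red : ∀ j, F j → κ j)
    (ρ : ∀ j, Γ →* Matrix (Fin 2) (Fin 2) (F j)) (S : ∀ j, Γ →* Matrix (Fin 2) (Fin 2) (κ j))
    (_ : ∀ j, IsMember frob nv T P Q (p j) (V (p j)) (Ω j) (ι j) (red j) (ρ j) (S j))
    (_ : {j | Big (p j) (S j)}.Infinite),
      (AllArise.{0} μ frob n (PE E P) (QE Q) ∧
        (∀ v ∉ T, ∀ φ : E →+* ℂ, RatioAt (fun i => P i v) (Q v) φ) ∧
        ∀ j, (kerV (V (p j)) ⊔ adKer (ρ j)).index = 0 ∧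
          (Big (p j) (S j) → p j ≠ 2 → kerV (Wm (p j) V) ≤ adKer (S j))) ∨
      (NoneArises.{0} μ frob n (PE E P) (QE Q) ∧
        (∃ v ∉ T, nv v ≤ c₁ * N ^ c₂ ∧ ∀ φ : E →+* ℂ, ¬ RatioAt (fun i => P i v) (Q v) φ) ∧
        (∀ j, (cross V ρ j).index ≠ 0 ∧ (Big (p j) (S j) → c₁ * N ^ c₂ < p j →
          (cross V ρ j).index ≤ 2 ∧ ¬ kerV (Wm (p j) V) ≤ adKer (S j))) ∧
        ∀ g : J → Γ, (∀ j, g j ∈ cross V ρ j) →
          ∃ h ∈ kerAll V, ∀ j, h⁻¹ * g j ∈ adKer (ρ j)) := by
  obtain ⟨c₁, c₂, h⟩ := MAINU_all r n i₀ d w p₀ a b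
  refine ⟨c₁, c₂, ?_⟩
  intro Γ Place E J _ _ _ _ _ _ μ _ frob nv hf _ _ hdE P Q T N hN hpol V hV F₀ _ _ _ hF₀ ι₀ ρ₀ hρ₀
    hEC p _ hp F Ω κ _ _ _ _ _ _ _ _ _ _ _ _ _ ι red ρ S hm hinf
  rcases h μ frob hf.nonempty hf.dense hdE nv hf.norm_ne_zero hf.finite P Q hpol.det T hpol.finite N
    hN (fun v hv => ⟨hpol.boundP v hv, hpol.boundQ v hv⟩) V hV.cont hV.charpoly F₀ hF₀ ι₀ ρ₀
    hρ₀.cont hρ₀.charpoly hEC p hp F Ω κ ι red (fun j => (hm j).isRed) ρ
    (fun j => (hm j).polys.cont) (fun j => (hm j).integral) (fun j => (hm j).polys.charpoly)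
    (fun j => (hm j).realisation) S (fun j => (hm j).reduction) hinf with
    ⟨h1, h2, h3, h4⟩ | ⟨h1, h2, h3, h4⟩
  · exact Or.inl ⟨h1, h2, fun j => ⟨h4 j, h3 j⟩⟩
  · exact Or.inr ⟨h1, h2, fun j => ⟨(h3 j).1, fun hb hc => ⟨((h3 j).2 hb hc).2,
      ((h3 j).2 hb hc).1⟩⟩, h4⟩

end Pool.Agent.Results.MP_2e0e07_nt.UniformDichotomy
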